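import Pool.Agent.Q237.ESN.CntA

/-! # Project ESB (helper161), job IDL: the sum of the inverses of the norms of the squarefree ideals -/

set_option autoImplicit false

namespace Pool.Agent.Q151.ESB

open NumberField IsDedekindDomain Finset
open Pool.Agent.Q237.ESN (ids mem_ids ids_le one_le_nm)

section

variable {F : Type} [Field F] [NumberField F]

theorem prod_ideal_ne (A : Finset (HeightOneSpectrum (𝓞 F))) : ∏ v ∈ A, v.asIdeal ≠ ⊥ := by
  rw [← Ideal.zero_eq_bot, Ne, Finset.prod_eq_zero_iff]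
  rintro ⟨v, -, hv⟩
  exact v.ne_bot hv

theorem dvd_prod_ideal (A : Finset (HeightOneSpectrum (𝓞 F))) (v : HeightOneSpectrum (𝓞 F)) :
    v.asIdeal ∣ ∏ w ∈ A, w.asIdeal ↔ v ∈ A := by
  constructor
  · intro h
    obtain ⟨w, hw, h1⟩ := (v.prime.dvd_finsetProd_iff _).1 h
    have h2 : w.asIdeal ≤ v.asIdeal := Ideal.dvd_iff_le.1 h1
    have h3 : w.asIdeal = v.asIdeal := w.isMaximal.eq_of_le v.isPrime.ne_top h2
    have h4 : w = v := HeightOneSpectrum.ext h3
    rwa [← h4]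
  · intro h
    exact Finset.dvd_prod_of_mem _ h

theorem prod_ideal_inj : Function.Injective
    (fun A : Finset (HeightOneSpectrum (𝓞 F)) => ∏ v ∈ A, v.asIdeal) := by
  intro A B h
  ext v
  rw [← dvd_prod_ideal A v, ← dvd_prod_ideal B v]
  exact iff_of_eq (congrArg (fun I => v.asIdeal ∣ I) h)

theorem norm_prod_ideal (A : Finset (HeightOneSpectrum (𝓞 F))) :
    ((Ideal.absNorm (∏ v ∈ A, v.asIdeal) : ℕ) : ℝ) = ∏ v ∈ A, ((Ideal.absNorm v.asIdeal : ℕ) : ℝ) := by
  rw [map_prod, Nat.cast_prod]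

open scoped Classical in
/-- the sum of the inverses of the norms -/
theorem sum_inv_le (F : Type) [Field F] [NumberField F] : ∃ C : ℝ, 0 < C ∧ ∀ X : ℝ, 1 ≤ X →
    ∀ s : Finset (Ideal (𝓞 F)), (∀ I ∈ s, I ≠ ⊥ ∧ ((Ideal.absNorm I : ℕ) : ℝ) ≤ X) →
    ∑ I ∈ s, 1 / (((Ideal.absNorm I : ℕ) : ℝ)) ≤ C * (1 + Real.log X) := by
  obtain ⟨C, hC, hcnt⟩ := ids_le F
  refine ⟨4 * C, by positivity, ?_⟩
  intro X hX s hs
  set f : Ideal (𝓞 F) → ℕ := fun I => Nat.log 2 (Ideal.absNorm I) with hf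
  have h1 : ∑ I ∈ s, 1 / (((Ideal.absNorm I : ℕ) : ℝ)) =
      ∑ j ∈ s.image f, ∑ I ∈ s with f I = j, 1 / (((Ideal.absNorm I : ℕ) : ℝ)) :=
    (Finset.sum_fiberwise_of_maps_to (fun I hI => Finset.mem_image_of_mem f hI) _).symm
  rw [h1]
  have h2 : ∀ j ∈ s.image f, ∑ I ∈ s with f I = j, 1 / (((Ideal.absNorm I : ℕ) : ℝ)) ≤ 2 * C := by
    intro j _
    have h3 : ∀ I ∈ s.filter (fun I => f I = j), 1 / (((Ideal.absNorm I : ℕ) : ℝ)) ≤
        1 / ((2 : ℝ) ^ j) := by
      intro I hI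
      rw [Finset.mem_filter] at hI
      have h4 : Ideal.absNorm I ≠ 0 := by
        rw [Ne, Ideal.absNorm_eq_zero_iff]
        exact (hs I hI.1).1
      have h5 : 2 ^ j ≤ Ideal.absNorm I := by
        rw [← hI.2]
        exact Nat.pow_log_le_self 2 h4
      have h6 : (2 : ℝ) ^ j ≤ ((Ideal.absNorm I : ℕ) : ℝ) := by exact_mod_cast h5
      exact one_div_le_one_div_of_le (by positivity) h6
    refine (Finset.sum_le_card_nsmul _ _ _ h3).trans ?_
    have h7 : s.filter (fun I => f I = j) ⊆ ids F ((2 : ℝ) ^ (j + 1)) := by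
      intro I hI
      rw [Finset.mem_filter] at hI
      rw [mem_ids]
      refine ⟨(hs I hI.1).1, ?_⟩
      have h5 : Ideal.absNorm I < 2 ^ (j + 1) := by
        rw [← hI.2]
        exact Nat.lt_pow_succ_log_self (by norm_num) _
      exact_mod_cast h5.le
    have h8 : ((s.filter (fun I => f I = j)).card : ℝ) ≤ C * 2 ^ (j + 1) := by
      refine le_trans ?_ (hcnt ((2 : ℝ) ^ (j + 1)) (by positivity))
      exact_mod_cast Finset.card_le_card h7
    rw [nsmul_eq_mul]
    have h9 : (0 : ℝ) < 2 ^ j := by positivity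
    calc ((s.filter (fun I => f I = j)).card : ℝ) * (1 / ((2 : ℝ) ^ j)) ≤
        (C * 2 ^ (j + 1)) * (1 / ((2 : ℝ) ^ j)) := by gcongr
      _ = 2 * C := by
        field_simp
        ring
  refine (Finset.sum_le_card_nsmul _ _ _ h2).trans ?_
  have hlX : 0 ≤ Real.log X := Real.log_nonneg hX
  have h10 : ((s.image f).card : ℝ) ≤ 2 * (1 + Real.log X) := by
    have h11 : s.image f ⊆ range (⌊2 * Real.log X⌋₊ + 1) := by
      intro j hj
      rw [Finset.mem_image] at hj
      obtain ⟨I, hI, rfl⟩ := hj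
      rw [Finset.mem_range, Nat.lt_succ_iff]
      apply Nat.le_floor
      have h4 : Ideal.absNorm I ≠ 0 := by
        rw [Ne, Ideal.absNorm_eq_zero_iff]
        exact (hs I hI).1
      have h5 : 2 ^ f I ≤ Ideal.absNorm I := Nat.pow_log_le_self 2 h4
      have h6 : (2 : ℝ) ^ f I ≤ X := le_trans (by exact_mod_cast h5) (hs I hI).2
      have h7 : (f I : ℝ) * Real.log 2 ≤ Real.log X := by
        rw [← Real.log_pow]
        exact Real.log_le_log (by positivity) h6
      have h8 : (1 : ℝ) / 2 ≤ Real.log 2 := by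
        have := Real.log_two_gt_d9
        linarith
      have h9 : (0 : ℝ) ≤ f I := Nat.cast_nonneg _
      nlinarith
    have h12 := Finset.card_le_card h11
    rw [Finset.card_range] at h12
    have h13 : ((s.image f).card : ℝ) ≤ (⌊2 * Real.log X⌋₊ : ℝ) + 1 := by exact_mod_cast h12
    have h14 : (⌊2 * Real.log X⌋₊ : ℝ) ≤ 2 * Real.log X := Nat.floor_le (by positivity)
    linarith
  rw [nsmul_eq_mul]
  nlinarith

end

end Pool.Agent.Q151.ESB
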