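import Pool.Agent.Q161.ESB.Stm4
import Pool.Agent.Q151.ESB.IdlA

/-! # Project ESB (helper161), job IDL: the sum of the inverses of the norms of the squarefree ideals -/

set_option autoImplicit false

namespace Pool.Agent.Q151.ESB

open NumberField IsDedekindDomain Finset
open Pool.Agent.Q161.ESB

theorem idl : S_IDL := by
  classical
  intro F _ _
  obtain ⟨C, hC, h⟩ := sum_inv_le F
  refine ⟨C, hC, ?_⟩
  intro X hX 𝒜 h𝒜
  have h1 := h X hX (𝒜.image fun A => ∏ v ∈ A, v.asIdeal) (by
    intro I hI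
    rw [Finset.mem_image] at hI
    obtain ⟨A, hA, rfl⟩ := hI
    refine ⟨prod_ideal_ne A, ?_⟩
    rw [norm_prod_ideal]
    exact h𝒜 A hA)
  rw [Finset.sum_image (fun A _ B _ hAB => prod_ideal_inj hAB)] at h1
  refine le_trans (le_of_eq ?_) h1
  exact Finset.sum_congr rfl fun A _ => by rw [norm_prod_ideal]

end Pool.Agent.Q151.ESB
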