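import Pool.Agent.Q161.ESB.Stm2
import Pool.Agent.Q68.ESN.Mn

/-! # Project ESB (helper161), job MN: the number of the elements of `T` (over a number field `F`, `M` blocks) -/

set_option autoImplicit false

namespace Pool.Agent.Q151.ESB

open NumberField IsDedekindDomain Finset
open Pool.Agent.Q51.EL (pr Abv N1)
open Pool.Agent.Q161.ESB
open Pool.Agent.Q241.ESM (side)
open Pool.Agent.Q68.ESN (norm_prodF)

/-- the norm of the product of the values of `M` equivariant functions -/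
theorem norm_prodB {F K : Type} [Field F] [NumberField F] [Field K] [NumberField K] [Algebra F K]
    {V : Type} [AddCommGroup V]
    [Fintype V] [DistribMulAction (K ≃ₐ[F] K) V] {ι : Type} [Fintype ι] [DecidableEq ι] {Lf : ι → Type}
    [∀ i, Field (Lf i)] [∀ i, NumberField (Lf i)] {em : (i : ι) → Lf i →+* K} {rp : ι → V}
    (hRp : Rp F Lf em rp)
    (hd : ∀ i, Module.finrank ℚ (Lf i) =
      Module.finrank ℚ F * {t : V | ∃ g : K ≃ₐ[F] K, g • rp i = t}.ncard)
    {M : ℕ} {z : Fin M → V → 𝓞 K} (hz : ∀ m, Eqv F (z m)) {y : Fin M → (i : ι) → 𝓞 (Lf i)}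
    (hy : ∀ m i, ((z m (rp i) : 𝓞 K) : K) = em i (y m i : Lf i))
    {N : 𝓞 F} (hN : ∏ m, ∏ t, z m t = iO F K N) :
    ((Ideal.absNorm (Ideal.span {N}) : ℕ) : ℝ) =
      ∏ x : ι × Fin M, ((Ideal.absNorm (Ideal.span {y x.2 x.1}) : ℕ) : ℝ) := by
  classical
  have h1 : Eqv F (fun t => ∏ m, z m t) := by
    intro g t
    change ((∏ m, z m (g • t) : 𝓞 K) : K) = g ((∏ m, z m t : 𝓞 K) : K)
    simp only [map_prod]
    exact Finset.prod_congr rfl fun m _ => hz m g t
  have h2 : ∀ i, (((fun t => ∏ m, z m t) (rp i) : 𝓞 K) : K) = em i ((∏ m, y m i : 𝓞 (Lf i)) : Lf i) := by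
    intro i
    change ((∏ m, z m (rp i) : 𝓞 K) : K) = em i ((∏ m, y m i : 𝓞 (Lf i)) : Lf i)
    simp only [map_prod]
    exact Finset.prod_congr rfl fun m _ => hy m i
  have h3 : ∏ t, (fun t => ∏ m, z m t) t = iO F K N := by
    rw [← hN, Finset.prod_comm]
  rw [norm_prodF hRp hd h1 (y := fun i => ∏ m, y m i) h2 h3, Fintype.prod_prod_type]
  refine Finset.prod_congr rfl fun i _ => ?_
  rw [← Ideal.prod_span_singleton, map_prod, Nat.cast_prod]

theorem mn (hSYS : S_SYS) (hAN : S_AN) (hEVX : S_EVX) : S_MN := by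
  classical
  intro M F K _ _ _ _ _ _ V _ _ _ hM hV2 hsemi hinv ι _ _ Lf _ _ em rp hRp B K0 T hB hT hLoc
  obtain ⟨⟨ev, hev⟩, hdeg⟩ := hEVX F K V ι Lf em rp hRp
  obtain ⟨n, bs, s, A, c, κ, C1, hOk, hEx, hC1, hcoord, hInT⟩ :=
    hSYS M F K V hM hV2 hsemi hinv ι Lf em rp hRp ev hev B K0 T hB hT hLoc
  have : Nonempty ι := by
    obtain ⟨i, -, -⟩ := hRp.orb 0
    exact ⟨i⟩
  have : Nonempty (Fin M) := ⟨⟨0, hM⟩⟩
  have hMc : M ≤ Fintype.card (ι × Fin M) := by
    rw [Fintype.card_prod, Fintype.card_fin]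
    exact Nat.le_mul_of_pos_left _ Fintype.card_pos
  have hn : ∀ i, n i = Module.finrank ℚ (Lf i) := by
    intro i
    rw [← RingOfIntegers.rank (Lf i), Module.finrank_eq_card_basis (bs i), Fintype.card_fin]
  have hn1 : ∀ i, 1 ≤ n i := by
    intro i
    rw [hn i]
    exact Module.finrank_pos
  obtain ⟨C, hC, hAN⟩ := hAN M (ι × Fin M) (fun x => n x.1) s A c κ hOk hEx hMc
  set K1 : ℝ := max K0 1 with hK1def
  have hK1 : 1 ≤ K1 := le_max_right _ _
  set C2 : ℝ := ∏ x : ι × Fin M, (C1 * K1 + 2) ^ n x.1 with hC2def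
  have hC2 : 1 ≤ C2 := by
    rw [hC2def, ← Finset.prod_const_one (s := (univ : Finset (ι × Fin M)))]
    refine Finset.prod_le_prod (fun _ _ => by norm_num) fun i _ => ?_
    refine one_le_pow₀ ?_
    nlinarith
  have hlC2 : 0 ≤ Real.log C2 := Real.log_nonneg hC2
  let T' : Set (Vc (fun x : ι × Fin M => n x.1)) :=
    {x | (fun m => ev (fun i => ∑ j, x (i, m) j • bs i j)) ∈ T}
  have hT' : InT s T' := fun x hx => hInT x hx
  refine ⟨C * C2 * (1 + Real.log C2) ^ (M - 1), by positivity, ?_⟩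
  intro X hX
  have hCX : 1 ≤ C2 * X := by nlinarith
  have hlX : 0 ≤ Real.log X := Real.log_nonneg hX
  obtain ⟨hfin, hcard⟩ := hAN T' hT' (C2 * X) hCX
  set S' : Set (Vc (fun x : ι × Fin M => n x.1)) :=
    {x ∈ T' | ∃ H : ι × Fin M → ℕ, (∀ i, 1 ≤ H i) ∧ (∀ i j, |x i j| ≤ H i) ∧
      ((∏ i, H i ^ n i.1 : ℕ) : ℝ) ≤ C2 * X} with hS'
  have hsub : {z ∈ T | ∃ N : 𝓞 F, ∏ m, ∏ t, z m t = iO F K N ∧
      ((Ideal.absNorm (Ideal.span {N}) : ℕ) : ℝ) ≤ X} ⊆
      (fun x : Vc (fun x : ι × Fin M => n x.1) => fun m => ev (fun i => ∑ j, x (i, m) j • bs i j)) '' S' := by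
    rintro z ⟨hzT, N, hN, hNX⟩
    have hzE : ∀ m, Eqv F (z m) := fun m => (hT z hzT m).1
    choose y hy using fun m => hev.sur (z m) (hzE m)
    have hyz : ∀ m i, ((z m (rp i) : 𝓞 K) : K) = em i (y m i : Lf i) := by
      intro m i
      rw [← hy m]
      exact hev.val (y m) i
    have hnice : ∀ m i, Nice K0 (y m i) := by
      intro m i
      obtain ⟨α, hα, hαn⟩ := (hT z hzT m).2 i
      have h1 : α = y m i := by
        apply NumberField.RingOfIntegers.ext
        apply (em i).injective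
        rw [hα, hyz]
      rwa [← h1]
    let xx : Vc (fun x : ι × Fin M => n x.1) := fun x j => (bs x.1).repr (y x.2 x.1) j
    have hrep : ∀ m, (fun i => ∑ j, xx (i, m) j • bs i j) = y m := by
      intro m
      funext i
      exact (bs i).sum_repr (y m i)
    have hrep2 : (fun m => ev (fun i => ∑ j, xx (i, m) j • bs i j)) = z := by
      funext m
      rw [hrep m, hy m]
    have hMM : ∀ x : ι × Fin M, 1 ≤ Ideal.absNorm (Ideal.span {y x.2 x.1}) := by
      intro x
      refine Nat.one_le_iff_ne_zero.2 ?_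
      rw [Ne, Ideal.absNorm_eq_zero_iff, Ideal.span_singleton_eq_bot]
      exact (hnice x.2 x.1).ne
    choose H hH1 hH2 hH3 using fun x : ι × Fin M => side (hn1 x.1) hC1 hK1 (hMM x)
    refine ⟨xx, ⟨?_, H, hH1, ?_, ?_⟩, hrep2⟩
    · change (fun m => ev (fun i => ∑ j, xx (i, m) j • bs i j)) ∈ T
      rw [hrep2]
      exact hzT
    · rintro ⟨i, m⟩ j
      have h1 := hcoord i (fun j => (bs i).repr (y m i) j)
        ((K1 * (Ideal.absNorm (Ideal.span {y m i}) : ℕ)) ^ (1 / (n i : ℝ))) (by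
          intro σ
          have h2 : (∑ j, (bs i).repr (y m i) j • bs i j) = y m i := (bs i).sum_repr (y m i)
          rw [h2]
          have h3 := (hnice m i).bal σ
          rw [← hn i] at h3
          have h4 : ‖σ (y m i : Lf i)‖ ^ n i ≤ K1 * (Ideal.absNorm (Ideal.span {y m i}) : ℕ) :=
            h3.trans (mul_le_mul_of_nonneg_right (le_max_left _ _) (Nat.cast_nonneg _))
          have hd0 : (0 : ℝ) < n i := by exact_mod_cast hn1 i
          calc ‖σ (y m i : Lf i)‖ = (‖σ (y m i : Lf i)‖ ^ n i) ^ (1 / (n i : ℝ)) := by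
                rw [← Real.rpow_natCast, ← Real.rpow_mul (norm_nonneg _), one_div,
                  mul_inv_cancel₀ hd0.ne', Real.rpow_one]
            _ ≤ _ := Real.rpow_le_rpow (by positivity) h4 (by positivity)) j
      have h2 := h1.trans (hH2 (i, m))
      exact_mod_cast h2
    · push_cast
      calc ∏ x, ((H x : ℝ)) ^ n x.1
          ≤ ∏ x : ι × Fin M, ((C1 * K1 + 2) ^ n x.1 * ((Ideal.absNorm (Ideal.span {y x.2 x.1}) : ℕ) : ℝ)) :=
            Finset.prod_le_prod (fun x _ => by positivity) fun x _ => hH3 x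
        _ = C2 * ((Ideal.absNorm (Ideal.span {N}) : ℕ) : ℝ) := by
            rw [Finset.prod_mul_distrib, norm_prodB hRp hdeg hzE hyz hN]
        _ ≤ C2 * X := by gcongr
  refine ⟨(hfin.image _).subset hsub, ?_⟩
  have hlog : 1 + Real.log (C2 * X) ≤ (1 + Real.log C2) * (1 + Real.log X) := by
    rw [Real.log_mul (by positivity) (by positivity)]
    nlinarith
  have hlog0 : 0 ≤ 1 + Real.log (C2 * X) := by
    have := Real.log_nonneg hCX
    linarith
  calc (({z ∈ T | ∃ N : 𝓞 F, ∏ m, ∏ t, z m t = iO F K N ∧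
      ((Ideal.absNorm (Ideal.span {N}) : ℕ) : ℝ) ≤ X}.ncard : ℕ) : ℝ)
      ≤ (((fun x : Vc (fun x : ι × Fin M => n x.1) => fun m =>
          ev (fun i => ∑ j, x (i, m) j • bs i j)) '' S').ncard : ℕ) := by
        exact_mod_cast Set.ncard_le_ncard hsub (hfin.image _)
    _ ≤ (S'.ncard : ℕ) := by exact_mod_cast Set.ncard_image_le hfin
    _ ≤ C * (C2 * X) * (1 + Real.log (C2 * X)) ^ (M - 1) := hcard
    _ ≤ C * (C2 * X) * ((1 + Real.log C2) * (1 + Real.log X)) ^ (M - 1) := by gcongr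
    _ = C * C2 * (1 + Real.log C2) ^ (M - 1) * X * (1 + Real.log X) ^ (M - 1) := by
        rw [mul_pow]; ring

end Pool.Agent.Q151.ESB
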